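import Pool.Agent.R280.SickMeas

/-!
On a sick compact space, every strongly countably determined probability measure is analytic.
-/

set_option autoImplicit false

open MeasureTheory Pool.Agent.R280.Sick

universe u v

namespace Pool.Agent.Results.MP_d104cf_an.GdeltaPointAnalytic

/-- Let `K` be a sick compact Hausdorff space and let `μ ∈ P(K)` be such that `{μ}` is a `G_δ`
subset of `P(K)`. Then `μ` is analytic. -/
theorem result (K : Type u) [TopologicalSpace K] [CompactSpace K] [T2Space K] [MeasurableSpace K]
    [BorelSpace K] (hK : IsSickUnit.{u, v} K) (μ : RegProb K)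
    (hμ : IsGδ ({μ} : Set (RegProb K))) : IsAnalyticMeasure μ := by
  obtain ⟨E, _, _, _, _, _, x, T, hT, -⟩ := hK
  exact hT.analytic μ hμ

end Pool.Agent.Results.MP_d104cf_an.GdeltaPointAnalytic
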